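import Pool.Agent.H295R3.W.StmtsB

set_option autoImplicit false

open Finset Complex

namespace Pool.Agent.H920R3.W

open Pool.Agent.H295R3.W

/-- fixed point approximations `(a + b i) / 10 ^ 8` with error `e / 10 ^ 8` -/
abbrev Tr := ℤ × ℤ × ℤ

def mulA (x y : Tr) : Tr :=
  ((x.1 * y.1 - x.2.1 * y.2.1) / 100000000, (x.1 * y.2.1 + x.2.1 * y.1) / 100000000,
   (x.2.2 * ((y.1.natAbs : ℤ) + (y.2.1.natAbs : ℤ) + y.2.2) +
     ((x.1.natAbs : ℤ) + (x.2.1.natAbs : ℤ)) * y.2.2) / 100000000 + 3)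

def scA (p : ℕ) (s : Tr) : Tr := (s.1 / (p : ℤ), s.2.1 / (p : ℤ), s.2.2 / (p : ℤ) + 3)

def FA (t : Tr) : Tr :=
  (100000000 - 3 * (mulA t t).1 + 2 * (mulA (mulA t t) t).1,
   -3 * (mulA t t).2.1 + 2 * (mulA (mulA t t) t).2.1,
   3 * (mulA t t).2.2 + 2 * (mulA (mulA t t) t).2.2)

def powA (t : Tr) : ℕ → Tr
  | 0 => (100000000, 0, 0)
  | m + 1 => mulA (powA t m) t

def prodA (k : ℕ) : List (ℕ × ℤ × ℤ) → Tr
  | [] => (100000000, 0, 0)
  | x :: l => mulA (FA (scA x.1 (powA (100 * x.2.1, 100 * x.2.2, 2000) (2 * k + 1)))) (prodA k l)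

noncomputable def toC (a b : ℤ) : ℂ := ⟨(a : ℝ) / 100000000, (b : ℝ) / 100000000⟩

def Good (x : ℂ) (t : Tr) : Prop := ‖x - toC t.1 t.2.1‖ ≤ (t.2.2 : ℝ) / 100000000

theorem div_bound (n q : ℤ) (hq : 0 < q) :
    0 ≤ (n : ℝ) / q - ((n / q : ℤ) : ℝ) ∧ (n : ℝ) / q - ((n / q : ℤ) : ℝ) ≤ 1 := by
  have h1 := Int.emod_add_mul_ediv n q
  have h2 := Int.emod_nonneg n hq.ne'
  have h3 := Int.emod_lt_of_pos n hq
  have hq' : (0 : ℝ) < q := by exact_mod_cast hq
  have h4 : (n : ℝ) / q - ((n / q : ℤ) : ℝ) = ((n % q : ℤ) : ℝ) / q := by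
    have h5 : (n : ℝ) = ((n % q : ℤ) : ℝ) + q * ((n / q : ℤ) : ℝ) := by exact_mod_cast h1.symm
    field_simp
    linarith
  have h2' : (0 : ℝ) ≤ ((n % q : ℤ) : ℝ) := by exact_mod_cast h2
  have h3' : ((n % q : ℤ) : ℝ) < q := by exact_mod_cast h3
  rw [h4]
  exact ⟨div_nonneg h2' hq'.le, (div_le_one hq').2 h3'.le⟩

theorem norm_toC (a b : ℤ) :
    ‖toC a b‖ ≤ ((a.natAbs : ℤ) + (b.natAbs : ℤ) : ℝ) / 100000000 := by
  have h := Complex.norm_le_abs_re_add_abs_im (toC a b)
  have h1 : |(toC a b).re| = ((a.natAbs : ℤ) : ℝ) / 100000000 := by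
    simp only [toC]
    rw [abs_div, Int.natCast_natAbs, Int.cast_abs]
    norm_num
  have h2 : |(toC a b).im| = ((b.natAbs : ℤ) : ℝ) / 100000000 := by
    simp only [toC]
    rw [abs_div, Int.natCast_natAbs, Int.cast_abs]
    norm_num
  rw [h1, h2] at h
  rw [add_div]
  exact_mod_cast h

theorem Good.nonneg {x : ℂ} {t : Tr} (h : Good x t) : (0 : ℝ) ≤ t.2.2 := by
  have := (norm_nonneg _).trans h
  by_contra hc
  push Not at hc
  have : (t.2.2 : ℝ) / 100000000 < 0 := div_neg_of_neg_of_pos hc (by norm_num)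
  linarith

theorem mul_good {x y : ℂ} {s t : Tr} (hx : Good x s) (hy : Good y t) : Good (x * y) (mulA s t) := by
  obtain ⟨a, b, e⟩ := s
  obtain ⟨c, d, f⟩ := t
  have he := hx.nonneg
  have hf := hy.nonneg
  unfold Good at hx hy ⊢
  unfold mulA
  simp only at hx hy he hf ⊢
  have hX := norm_toC a b
  have hY := norm_toC c d
  set X := toC a b with hXdef
  set Y := toC c d with hYdef
  set r := toC ((a * c - b * d) / 100000000) ((a * d + b * c) / 100000000) with hr
  have hr1 := div_bound (a * c - b * d) 100000000 (by norm_num)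
  have hr2 := div_bound (a * d + b * c) 100000000 (by norm_num)
  set N : ℤ := e * ((c.natAbs : ℤ) + (d.natAbs : ℤ) + f) + ((a.natAbs : ℤ) + (b.natAbs : ℤ)) * f with hN
  have hN1 := div_bound N 100000000 (by norm_num)
  have h1 : ‖X * Y - r‖ ≤ 2 / 100000000 := by
    refine (Complex.norm_le_abs_re_add_abs_im _).trans ?_
    have hre : (X * Y - r).re = (((a * c - b * d : ℤ) : ℝ) / (100000000 : ℤ) -
        (((a * c - b * d) / 100000000 : ℤ) : ℝ)) / 100000000 := by
      simp only [hXdef, hYdef, hr, toC, Complex.sub_re, Complex.mul_re]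
      push_cast
      ring
    have him : (X * Y - r).im = (((a * d + b * c : ℤ) : ℝ) / (100000000 : ℤ) -
        (((a * d + b * c) / 100000000 : ℤ) : ℝ)) / 100000000 := by
      simp only [hXdef, hYdef, hr, toC, Complex.sub_im, Complex.mul_im]
      push_cast
      ring
    rw [hre, him, abs_of_nonneg (by apply div_nonneg hr1.1; norm_num),
      abs_of_nonneg (by apply div_nonneg hr2.1; norm_num)]
    have e1 := hr1.2
    have e2 := hr2.2
    linarith
  have h2 : x * y - r = (x - X) * y + X * (y - Y) + (X * Y - r) := by ring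
  have hynorm : ‖y‖ ≤ ((c.natAbs : ℤ) + (d.natAbs : ℤ) : ℝ) / 100000000 + f / 100000000 := by
    have : y = Y + (y - Y) := by ring
    rw [this]
    exact (norm_add_le _ _).trans (add_le_add hY hy)
  have h3 : ‖(x - X) * y‖ ≤ (e : ℝ) / 100000000 *
      (((c.natAbs : ℤ) + (d.natAbs : ℤ) : ℝ) / 100000000 + f / 100000000) := by
    rw [norm_mul]
    exact mul_le_mul hx hynorm (norm_nonneg _) (by positivity)
  have h4 : ‖X * (y - Y)‖ ≤ (((a.natAbs : ℤ) + (b.natAbs : ℤ) : ℝ) / 100000000) *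
      ((f : ℝ) / 100000000) := by
    rw [norm_mul]
    exact mul_le_mul hX hy (norm_nonneg _) (by positivity)
  have h5 : (e : ℝ) / 100000000 * (((c.natAbs : ℤ) + (d.natAbs : ℤ) : ℝ) / 100000000 + f / 100000000)
      + (((a.natAbs : ℤ) + (b.natAbs : ℤ) : ℝ) / 100000000) * ((f : ℝ) / 100000000)
      = ((N : ℝ) / (100000000 : ℤ)) / 100000000 := by
    rw [hN]; push_cast; ring
  have h6 := hN1.2
  rw [h2]
  calc ‖(x - X) * y + X * (y - Y) + (X * Y - r)‖
      ≤ ‖(x - X) * y‖ + ‖X * (y - Y)‖ + ‖X * Y - r‖ :=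
        (norm_add_le _ _).trans (by gcongr; exact norm_add_le _ _)
    _ ≤ ((N : ℝ) / (100000000 : ℤ)) / 100000000 + 2 / 100000000 := by
        rw [← h5]; linarith
    _ ≤ ((N / 100000000 + 3 : ℤ) : ℝ) / 100000000 := by
        push_cast at h6 ⊢
        linarith

theorem sc_good {x : ℂ} {s : Tr} (p : ℕ) (hp : 0 < p) (hx : Good x s) : Good (x / p) (scA p s) := by
  obtain ⟨a, b, e⟩ := s
  have he := hx.nonneg
  unfold Good at hx ⊢
  unfold scA
  simp only at hx he ⊢
  have hpz : (0 : ℤ) < p := by exact_mod_cast hp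
  have hpr : (0 : ℝ) < p := by exact_mod_cast hp
  have hr1 := div_bound a p hpz
  have hr2 := div_bound b p hpz
  have hr3 := div_bound e p hpz
  push_cast at hr1 hr2 hr3
  have hpc : (p : ℂ) ≠ 0 := by exact_mod_cast hp.ne'
  set X := toC a b with hXdef
  set r := toC (a / p) (b / p) with hr
  have h1 : ‖X / p - r‖ ≤ 2 / 100000000 := by
    refine (Complex.norm_le_abs_re_add_abs_im _).trans ?_
    have hre : (X / p - r).re = ((a : ℝ) / p - ((a / p : ℤ) : ℝ)) / 100000000 := by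
      rw [Complex.sub_re, Complex.div_natCast_re]
      simp only [hXdef, hr, toC]
      ring
    have him : (X / p - r).im = ((b : ℝ) / p - ((b / p : ℤ) : ℝ)) / 100000000 := by
      rw [Complex.sub_im, Complex.div_natCast_im]
      simp only [hXdef, hr, toC]
      ring
    rw [hre, him, abs_of_nonneg (by apply div_nonneg hr1.1; norm_num),
      abs_of_nonneg (by apply div_nonneg hr2.1; norm_num)]
    have e1 := hr1.2
    have e2 := hr2.2
    linarith
  have h2 : x / p - r = (x - X) / p + (X / p - r) := by ring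
  have h3 : ‖(x - X) / p‖ ≤ (e : ℝ) / p / 100000000 := by
    rw [norm_div, Complex.norm_natCast]
    calc ‖x - X‖ / p ≤ ((e : ℝ) / 100000000) / p := by gcongr
      _ = _ := by ring
  rw [h2]
  refine (norm_add_le _ _).trans ?_
  have h4 := hr3.2
  push_cast
  linarith

theorem F_good {z : ℂ} {t : Tr} (hz : Good z t) : Good (1 - 3 * z ^ 2 + 2 * z ^ 3) (FA t) := by
  have h2 := mul_good hz hz
  have h3 := mul_good h2 hz
  set A := mulA t t with hA
  set B := mulA A t with hB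
  unfold Good at h2 h3 ⊢
  unfold FA
  rw [← hA, ← hB]
  simp only
  have h4 : 1 - 3 * z ^ 2 + 2 * z ^ 3 - toC (100000000 - 3 * A.1 + 2 * B.1) (-3 * A.2.1 + 2 * B.2.1)
      = (-3) * (z * z - toC A.1 A.2.1) + 2 * (z * z * z - toC B.1 B.2.1) := by
    apply Complex.ext
    · simp [toC, pow_succ]
      ring
    · simp [toC, pow_succ]
      ring
  rw [h4]
  refine (norm_add_le _ _).trans ?_
  rw [norm_mul, norm_mul]
  have e3 : ‖(-3 : ℂ)‖ = 3 := by norm_num
  have e2 : ‖(2 : ℂ)‖ = 2 := by norm_num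
  rw [e3, e2]
  push_cast
  linarith

theorem one_good : Good 1 (100000000, 0, 0) := by
  unfold Good toC
  have : (1 : ℂ) - ⟨((100000000 : ℤ) : ℝ) / 100000000, ((0 : ℤ) : ℝ) / 100000000⟩ = 0 := by
    apply Complex.ext <;> simp
  simp only
  rw [this]; simp

theorem pow_good {x : ℂ} {t : Tr} (hx : Good x t) (m : ℕ) : Good (x ^ m) (powA t m) := by
  induction m with
  | zero => rw [pow_zero]; exact one_good
  | succ m ih => rw [pow_succ]; exact mul_good ih hx

/-- `p^{-i π / log 2}` -/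
noncomputable def Wp (p : ℕ) : ℂ := Complex.exp (-((Real.pi * Real.log p / Real.log 2 : ℝ) : ℂ) * I)

noncomputable def Fz (z : ℂ) : ℂ := 1 - 3 * z ^ 2 + 2 * z ^ 3

theorem prod_good (k : ℕ) (l : List (ℕ × ℤ × ℤ))
    (h : ∀ x ∈ l, 0 < x.1 ∧ Good (Wp x.1) (100 * x.2.1, 100 * x.2.2, 2000)) :
    Good ((l.map fun x => Fz ((Wp x.1) ^ (2 * k + 1) / x.1)).prod) (prodA k l) := by
  induction l with
  | nil => rw [List.map_nil, List.prod_nil]; exact one_good
  | cons x l ih =>
    rw [List.map_cons, List.prod_cons]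
    have hx := h x List.mem_cons_self
    exact mul_good (F_good (sc_good x.1 hx.1 (pow_good hx.2 _)))
      (ih fun y hy => h y (List.mem_cons_of_mem _ hy))

def itab : List (ℕ × ℤ × ℤ) :=
  [(3, 263759, 964588), (5, 530703, -847558), (7, -822381, -568937), (11, -127105, 991889),
   (13, 588902, 808204), (17, 962487, -271328), (19, 711696, -702488), (23, -73954, -997262),
   (29, -902108, -431510), (31, -989665, -143400), (37, -791206, 611549), (41, -432725, 901526),
   (43, -229580, 973290), (47, 170657, 985331), (53, 656397, 754415), (59, 932801, 360392),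
   (61, 976419, 215882), (67, 978523, -206137), (71, 891367, -453282), (73, 827390, -561627),
   (79, 578135, -815941), (83, 382569, -923927), (89, 76162, -997095), (97, -308757, -951141)]

theorem wtab_eq : wtab = itab.map fun x => (x.1, (x.2.1 : ℚ) / 1000000, (x.2.2 : ℚ) / 1000000) := by
  simp only [wtab, itab, List.map_cons, List.map_nil]
  norm_num

theorem itab_good (hW : TaskW) (x : ℕ × ℤ × ℤ) (hx : x ∈ itab) :
    0 < x.1 ∧ Good (Wp x.1) (100 * x.2.1, 100 * x.2.2, 2000) := by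
  constructor
  · have : ∀ y ∈ itab, 0 < y.1 := by decide
    exact this x hx
  · have h1 : (x.1, (x.2.1 : ℚ) / 1000000, (x.2.2 : ℚ) / 1000000) ∈ wtab := by
      rw [wtab_eq, List.mem_map]
      exact ⟨x, hx, rfl⟩
    have h2 := hW _ h1
    unfold Good
    simp only at h2 ⊢
    have h3 : (((x.2.1 : ℚ) / 1000000 : ℚ) : ℂ) + (((x.2.2 : ℚ) / 1000000 : ℚ) : ℂ) * I =
        toC (100 * x.2.1) (100 * x.2.2) := by
      apply Complex.ext
      · simp [toC]
        ring
      · simp [toC]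
        ring
    rw [h3] at h2
    refine (le_of_eq ?_).trans (h2.trans ?_)
    · rfl
    · norm_num

theorem cpow_eq (p k : ℕ) (hp : 0 < p) : (p : ℂ) ^ (-(sk k)) = (Wp p) ^ (2 * k + 1) / p := by
  have hpc : (p : ℂ) ≠ 0 := by exact_mod_cast hp.ne'
  have hpr : (0 : ℝ) < p := by exact_mod_cast hp
  rw [Complex.cpow_def_of_ne_zero hpc, ← Complex.ofReal_natCast, ← Complex.ofReal_log hpr.le]
  unfold Wp sk om
  rw [← Complex.exp_nat_mul]
  have h1 : ((p : ℝ) : ℂ)⁻¹ = Complex.exp (-((Real.log p : ℝ) : ℂ)) := by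
    rw [Complex.exp_neg, ← Complex.ofReal_exp, Real.exp_log hpr]
  rw [div_eq_mul_inv (Complex.exp _) _, h1, ← Complex.exp_add]
  congr 1
  push_cast
  ring

theorem two_cpow (k : ℕ) : (2 : ℂ) ^ (-(sk k)) = -1 / 2 := by
  have h := cpow_eq 2 k (by norm_num)
  have h1 : Wp 2 = -1 := by
    unfold Wp
    have h2 : Real.pi * Real.log (2 : ℕ) / Real.log 2 = Real.pi := by
      have : Real.log 2 ≠ 0 := (Real.log_pos (by norm_num)).ne'
      push_cast
      field_simp
    rw [h2, neg_mul, Complex.exp_neg, Complex.exp_pi_mul_I]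
    norm_num
  rw [h1] at h
  push_cast at h
  rw [h, pow_succ, pow_mul]
  norm_num

theorem primes_eq : (Ico 3 100).filter Nat.Prime = (itab.map fun x => x.1).toFinset := by
  decide +kernel

theorem prod_eq (k : ℕ) : ∏ p ∈ (Ico 3 100).filter Nat.Prime,
    (1 - 3 * ((p : ℂ) ^ (-(sk k))) ^ 2 + 2 * ((p : ℂ) ^ (-(sk k))) ^ 3)⁻¹ =
    ((itab.map fun x => Fz ((Wp x.1) ^ (2 * k + 1) / x.1)).prod)⁻¹ := by
  rw [Finset.prod_inv_distrib]
  congr 1
  rw [primes_eq, List.prod_toFinset _ (by decide), List.map_map]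
  congr 1
  apply List.map_congr_left
  intro x hx
  have hx0 : 0 < x.1 := by
    have : ∀ y ∈ itab, 0 < y.1 := by decide
    exact this x hx
  simp only [Function.comp]
  rw [cpow_eq x.1 k hx0]
  rfl

theorem fin_bound (P R G : ℂ) (a b e m : ℤ) (U V : ℝ) (hP : Good P (a, b, e))
    (hR : ‖R - 1‖ ≤ 1 / 100) (hG1 : |G.re| ≤ 3 / 5) (hG2 : |G.im| ≤ 2 / 5) (hm0 : 0 ≤ m)
    (hm : m ^ 2 ≤ a ^ 2 + b ^ 2) (hem : e < m)
    (hU : |4 / 9 - (G.re * (a / 100000000) - G.im * (b / 100000000))| ≤ U)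
    (hV : |G.re * (b / 100000000) + G.im * (a / 100000000)| ≤ V)
    (hfin : 4 / 900 + U + V + (e : ℝ) / 100000000 ≤ ((m : ℝ) / 100000000 - e / 100000000) / 100) :
    ‖(1 - (-1 / 2 : ℂ))⁻¹ ^ 2 * P⁻¹ * R - G‖ ≤ 1 / 100 := by
  unfold Good at hP
  simp only at hP
  set Q := toC a b with hQ
  have he : (0 : ℝ) ≤ (e : ℝ) / 100000000 := (norm_nonneg _).trans hP
  have hQm : (m : ℝ) / 100000000 ≤ ‖Q‖ := by
    have h1 : ‖Q‖ ^ 2 = ((a : ℝ) / 100000000) ^ 2 + ((b : ℝ) / 100000000) ^ 2 := by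
      rw [Complex.sq_norm, Complex.normSq_apply]
      simp only [hQ, toC]
      ring
    have h2 : ((m : ℝ) / 100000000) ^ 2 ≤ ‖Q‖ ^ 2 := by
      rw [h1]
      have h3 : (m : ℝ) ^ 2 ≤ (a : ℝ) ^ 2 + (b : ℝ) ^ 2 := by exact_mod_cast hm
      have h4 : ((m : ℝ) / 100000000) ^ 2 = (m : ℝ) ^ 2 / 100000000 ^ 2 := by ring
      have h5 : ((a : ℝ) / 100000000) ^ 2 + ((b : ℝ) / 100000000) ^ 2 =
        ((a : ℝ) ^ 2 + (b : ℝ) ^ 2) / 100000000 ^ 2 := by ring
      rw [h4, h5]
      gcongr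
    have h6 : (0 : ℝ) ≤ (m : ℝ) / 100000000 := by
      have : (0 : ℝ) ≤ (m : ℝ) := by exact_mod_cast hm0
      positivity
    exact (pow_le_pow_iff_left₀ h6 (norm_nonneg _) two_ne_zero).1 h2
  have hPn : (m : ℝ) / 100000000 - e / 100000000 ≤ ‖P‖ := by
    have h1 : ‖Q‖ ≤ ‖P‖ + ‖P - Q‖ := by
      have : Q = P - (P - Q) := by ring
      conv_lhs => rw [this]
      exact norm_sub_le _ _
    linarith
  have hme : (0 : ℝ) < (m : ℝ) / 100000000 - e / 100000000 := by
    have : (e : ℝ) < m := by exact_mod_cast hem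
    linarith
  have hPpos : 0 < ‖P‖ := lt_of_lt_of_le hme hPn
  have hP0 : P ≠ 0 := norm_pos_iff.1 hPpos
  have hGn : ‖G‖ ≤ 1 := (Complex.norm_le_abs_re_add_abs_im G).trans (by linarith)
  have h49 : (1 - (-1 / 2 : ℂ))⁻¹ ^ 2 = 4 / 9 := by norm_num
  have key : (1 - (-1 / 2 : ℂ))⁻¹ ^ 2 * P⁻¹ * R - G = (4 / 9 * R - G * P) / P := by
    rw [h49]; field_simp
  rw [key, norm_div, div_le_iff₀ hPpos]
  have h1 : 4 / 9 * R - G * P = 4 / 9 * (R - 1) + (4 / 9 - G * Q) - G * (P - Q) := by ring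
  have h2 : ‖(4 / 9 : ℂ) * (R - 1)‖ ≤ 4 / 900 := by
    rw [norm_mul]
    have : ‖(4 / 9 : ℂ)‖ = 4 / 9 := by norm_num
    rw [this]; linarith
  have h3 : ‖4 / 9 - G * Q‖ ≤ U + V := by
    refine (Complex.norm_le_abs_re_add_abs_im _).trans (add_le_add ?_ ?_)
    · have : (4 / 9 - G * Q).re = 4 / 9 - (G.re * (a / 100000000) - G.im * (b / 100000000)) := by
        simp only [Complex.sub_re, Complex.mul_re, hQ, toC]
        norm_num
      rw [this]; exact hU
    · have : (4 / 9 - G * Q).im = -(G.re * (b / 100000000) + G.im * (a / 100000000)) := by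
        simp only [Complex.sub_im, Complex.mul_im, hQ, toC]
        norm_num
      rw [this, abs_neg]; exact hV
  have h4 : ‖G * (P - Q)‖ ≤ (e : ℝ) / 100000000 := by
    rw [norm_mul]
    calc ‖G‖ * ‖P - Q‖ ≤ 1 * ((e : ℝ) / 100000000) := mul_le_mul hGn hP (norm_nonneg _) zero_le_one
      _ = _ := one_mul _
  rw [h1]
  calc ‖4 / 9 * (R - 1) + (4 / 9 - G * Q) - G * (P - Q)‖
      ≤ ‖4 / 9 * (R - 1) + (4 / 9 - G * Q)‖ + ‖G * (P - Q)‖ := norm_sub_le _ _
    _ ≤ ‖(4 / 9 : ℂ) * (R - 1)‖ + ‖4 / 9 - G * Q‖ + ‖G * (P - Q)‖ := by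
        gcongr; exact norm_add_le _ _
    _ ≤ 4 / 900 + U + V + (e : ℝ) / 100000000 := by linarith
    _ ≤ ((m : ℝ) / 100000000 - e / 100000000) / 100 := hfin
    _ ≤ 1 / 100 * ‖P‖ := by linarith

theorem taskH : TaskH := by
  intro hG hEP hW k hk
  obtain ⟨R, hR, hD⟩ := hEP hG (sk k) (by simp [sk])
  rw [hD, two_cpow, prod_eq]
  have hgood := prod_good k itab (itab_good hW)
  interval_cases k
  · have hv : prodA 0 itab = (129882644, -18127152, 6027) := by decide +kernel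
    rw [hv] at hgood
    apply fin_bound _ R _ _ _ _ 131141506 (1 / 1000) (1 / 1000) hgood hR
    · simp only [Gt]; exact abs_le.2 ⟨by norm_num, by norm_num⟩
    · simp only [Gt]; exact abs_le.2 ⟨by norm_num, by norm_num⟩
    · norm_num
    · norm_num
    · norm_num
    · simp only [Gt]; exact abs_le.2 ⟨by norm_num, by norm_num⟩
    · simp only [Gt]; exact abs_le.2 ⟨by norm_num, by norm_num⟩
    · norm_num
  · have hv : prodA 1 itab = (96486297, -33833072, 22244) := by decide +kernel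
    rw [hv] at hgood
    apply fin_bound _ R _ _ _ _ 102246184 (3 / 10000) (3 / 10000) hgood hR
    · simp only [Gt]; exact abs_le.2 ⟨by norm_num, by norm_num⟩
    · simp only [Gt]; exact abs_le.2 ⟨by norm_num, by norm_num⟩
    · norm_num
    · norm_num
    · norm_num
    · simp only [Gt]; exact abs_le.2 ⟨by norm_num, by norm_num⟩
    · simp only [Gt]; exact abs_le.2 ⟨by norm_num, by norm_num⟩
    · norm_num
  · have hv : prodA 2 itab = (80358739, -13746309, 42158) := by decide +kernel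
    rw [hv] at hgood
    apply fin_bound _ R _ _ _ _ 81525995 (3 / 10000) (3 / 10000) hgood hR
    · simp only [Gt]; exact abs_le.2 ⟨by norm_num, by norm_num⟩
    · simp only [Gt]; exact abs_le.2 ⟨by norm_num, by norm_num⟩
    · norm_num
    · norm_num
    · norm_num
    · simp only [Gt]; exact abs_le.2 ⟨by norm_num, by norm_num⟩
    · simp only [Gt]; exact abs_le.2 ⟨by norm_num, by norm_num⟩
    · norm_num
  · have hv : prodA 3 itab = (67574724, 28594007, 87963) := by decide +kernel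
    rw [hv] at hgood
    apply fin_bound _ R _ _ _ _ 73375476 (3 / 10000) (3 / 10000) hgood hR
    · simp only [Gt]; exact abs_le.2 ⟨by norm_num, by norm_num⟩
    · simp only [Gt]; exact abs_le.2 ⟨by norm_num, by norm_num⟩
    · norm_num
    · norm_num
    · norm_num
    · simp only [Gt]; exact abs_le.2 ⟨by norm_num, by norm_num⟩
    · simp only [Gt]; exact abs_le.2 ⟨by norm_num, by norm_num⟩
    · norm_num

end Pool.Agent.H920R3.W
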